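import Pool.Agent.N20.EN.Stm
import Pool.Agent.Y177.NV.Filta

/-!
# Project EN: one step of the filtration, with an overgroup (helper657)

Adapted from `Pool/Agent/Y177/NV/Filta.lean`.
-/

set_option autoImplicit false

open scoped Classical Pointwise

noncomputable section

namespace Pool.Agent.N657.EN

open Pool.Agent.Y63.NV Pool.Agent.Y177.NV Pool.Agent.N20.EN

section

theorem card_conjO {Γ : Type} [Group Γ] {K : Subgroup Γ} {h : Γ}
    (hK : ∀ y : Γ, h * y * h⁻¹ ∈ K ↔ y ∈ K) (x : Γ) :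
    Nat.card ↥(K ⊓ Subgroup.centralizer ({h * x * h⁻¹} : Set Γ)) =
      Nat.card ↥(K ⊓ Subgroup.centralizer ({x} : Set Γ)) := by
  symm
  refine Nat.card_congr (Equiv.subtypeEquiv (MulAut.conj h).toEquiv fun y => ?_)
  show y ∈ K ⊓ _ ↔ h * y * h⁻¹ ∈ K ⊓ _
  rw [Subgroup.mem_inf, Subgroup.mem_inf, Pool.Agent.Y177.NV.mem_cent, Pool.Agent.Y177.NV.mem_cent]
  refine and_congr (hK y).symm ?_
  have h1 : h * y * h⁻¹ * (h * x * h⁻¹) = h * (y * x) * h⁻¹ := by group
  have h2 : h * x * h⁻¹ * (h * y * h⁻¹) = h * (x * y) * h⁻¹ := by group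
  rw [h1, h2, mul_left_inj, mul_right_inj]

variable {p : ℕ} [hp : Fact p.Prime] {Γ : Type} [Group Γ] [Finite Γ]

/-- two elements of `S_R` which are conjugate under `H` are conjugate under the normaliser of `R` -/
theorem conj_of_conjO {M H R : Subgroup Γ} {x x' h : Γ} (hR : IsPGroup p R) (hRM : R ≤ M)
    (hMH : M ≤ H) (hnM : ∀ h ∈ H, ∀ m ∈ M, h * m * h⁻¹ ∈ M) (hh : h ∈ H) (hxx : x' = h * x * h⁻¹) (hx : ∀ r ∈ R, r * x = x * r)
    (hx' : ∀ r ∈ R, r * x' = x' * r)
    (hc : (Nat.card ↥(M ⊓ Subgroup.centralizer {x'})).factorization p =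
      (Nat.card R).factorization p) :
    ∃ j ∈ H ⊓ Subgroup.normalizer (R : Set Γ), x' = j * x * j⁻¹ := by
  set K : Subgroup Γ := M ⊓ Subgroup.centralizer {x'} with hK
  set R' : Subgroup Γ := R.map (MulAut.conj h).toMonoidHom with hR'
  have hRK : R ≤ K := by
    intro r hr
    exact Subgroup.mem_inf.2 ⟨hRM hr, Pool.Agent.Y177.NV.mem_cent.2 (hx' r hr)⟩
  have hmem : ∀ r, h * r * h⁻¹ ∈ R' ↔ r ∈ R := by
    intro r
    rw [hR', Subgroup.mem_map]
    constructor
    · rintro ⟨s, hs, hs'⟩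
      have : s = r := by
        have h1 : h * s * h⁻¹ = h * r * h⁻¹ := hs'
        simpa using h1
      rwa [← this]
    · intro hr
      exact ⟨r, hr, rfl⟩
  have hR'K : R' ≤ K := by
    rintro _ ⟨r, hr, rfl⟩
    refine Subgroup.mem_inf.2 ⟨hnM h hh r (hRM hr), Pool.Agent.Y177.NV.mem_cent.2 ?_⟩
    show h * r * h⁻¹ * x' = x' * (h * r * h⁻¹)
    rw [hxx]
    calc h * r * h⁻¹ * (h * x * h⁻¹) = h * (r * x) * h⁻¹ := by group
      _ = h * (x * r) * h⁻¹ := by rw [hx r hr]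
      _ = h * x * h⁻¹ * (h * r * h⁻¹) := by group
  have hcard : Nat.card R = p ^ (Nat.card K).factorization p := by
    obtain ⟨n, hn⟩ := IsPGroup.iff_card.1 hR
    rw [hc, hn, hp.out.factorization_pow, Finsupp.single_eq_same]
  have h1 : Nat.card ↥(R.subgroupOf K) = p ^ (Nat.card K).factorization p := by
    rw [← hcard]
    exact Nat.card_congr (Subgroup.subgroupOfEquivOfLe hRK).toEquiv
  have h2 : Nat.card ↥(R'.subgroupOf K) = p ^ (Nat.card K).factorization p := by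
    rw [← hcard]
    rw [Nat.card_congr (Subgroup.subgroupOfEquivOfLe hR'K).toEquiv]
    exact Nat.card_congr (Subgroup.equivMapOfInjective _ _ (MulAut.conj h).injective).toEquiv.symm
  obtain ⟨k, hk⟩ := MulAction.exists_smul_eq K (Sylow.ofCard (R'.subgroupOf K) h2)
    (Sylow.ofCard (R.subgroupOf K) h1)
  have hk' : ∀ y : K, k * y * k⁻¹ ∈ R.subgroupOf K ↔ y ∈ R'.subgroupOf K := by
    intro y
    have h3 : (R.subgroupOf K : Subgroup K) = MulAut.conj k • (R'.subgroupOf K) := by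
      have h10 : ((k • Sylow.ofCard (R'.subgroupOf K) h2 : Sylow p K) : Subgroup K) =
          (Sylow.ofCard (R.subgroupOf K) h1 : Sylow p K) := by rw [hk]
      rw [Sylow.coe_subgroup_smul, Sylow.coe_ofCard, Sylow.coe_ofCard] at h10
      exact h10.symm
    rw [h3]
    exact Subgroup.smul_mem_pointwise_smul_iff
  refine ⟨k * h, Subgroup.mem_inf.2 ⟨H.mul_mem (hMH k.2.1) hh, ?_⟩, ?_⟩
  · rw [Subgroup.mem_normalizer_iff]
    intro r
    have h4 : (k : Γ) * h * r * (k * h)⁻¹ = k * (h * r * h⁻¹) * (k : Γ)⁻¹ := by group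
    rw [h4]
    constructor
    · intro hr
      have h5 := (hk' ⟨h * r * h⁻¹, hR'K ((hmem r).2 hr)⟩).2 ((hmem r).2 hr)
      exact h5
    · intro hr
      have h6 : h * r * h⁻¹ ∈ K := by
        have h7 := K.mul_mem (K.mul_mem (K.inv_mem k.2) (hRK hr)) k.2
        have h8 : (k : Γ)⁻¹ * (k * (h * r * h⁻¹) * (k : Γ)⁻¹) * k = h * r * h⁻¹ := by group
        rwa [h8] at h7
      exact (hmem r).1 ((hk' ⟨_, h6⟩).1 hr)
  · have h9 : (k : Γ) * x' = x' * k := Pool.Agent.Y177.NV.mem_cent.1 k.2.2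
    calc x' = x' * k * (k : Γ)⁻¹ := by group
      _ = k * x' * (k : Γ)⁻¹ := by rw [h9]
      _ = k * h * x * (k * h)⁻¹ := by rw [hxx]; group

end

/-- one step of the filtration by the Sylow `p`-subgroups of the centralisers -/
theorem FILTAO : S_FILTAO := by
  intro p _ F _ _ _ Γ _ _ N M H z hE c R hR hRM hMN
  have hMH : M ≤ H := hE.le
  have hRH : R ≤ H := hRM.trans hMH
  set J := H ⊓ Subgroup.normalizer (R : Set Γ) with hJ
  set JM := M ⊓ Subgroup.normalizer (R : Set Γ) with hJM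
  set S := SR p N JM R with hS
  have hJH : J ≤ H := inf_le_left
  have hRJM : R ≤ JM := le_inf hRM Subgroup.le_normalizer
  have hJMJ : JM ≤ J := inf_le_inf_right _ hMH
  have hRJ : R ≤ J := hRJM.trans hJMJ
  have hnM : ∀ h ∈ H, ∀ m : Γ, h * m * h⁻¹ ∈ M ↔ m ∈ M := fun h hh m =>
    conj_mem_iff (S := (M : Set Γ)) hE.normM hh m
  have hnJM : ∀ j ∈ J, ∀ m : Γ, j * m * j⁻¹ ∈ JM ↔ m ∈ JM := by
    intro j hj m
    refine conj_mem_iff (S := (JM : Set Γ)) (J := J) (fun j hj m hm => ?_) hj m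
    obtain ⟨hm1, hm2⟩ := Subgroup.mem_inf.1 hm
    obtain ⟨hj1, hj2⟩ := Subgroup.mem_inf.1 hj
    exact Subgroup.mem_inf.2 ⟨hE.normM j hj1 m hm1,
      Subgroup.mul_mem _ (Subgroup.mul_mem _ hj2 hm2) (Subgroup.inv_mem _ hj2)⟩
  -- membership
  have hSJ : ∀ j ∈ J, ∀ x ∈ S, j * x * j⁻¹ ∈ S := by
    rintro j hj x ⟨h1, h2, h3, h4⟩
    refine ⟨hE.normN j (hJH hj) x h1, by rwa [orderOf_conj'], fun r hr => ?_, ?_⟩
    · have h5 : j⁻¹ * r * j ∈ R := by
        have := (Subgroup.mem_normalizer_iff''.1 (Subgroup.mem_inf.1 hj).2 r).1 hr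
        exact this
      have h6 := h3 _ h5
      calc r * (j * x * j⁻¹) = j * (j⁻¹ * r * j * x) * j⁻¹ := by group
        _ = j * (x * (j⁻¹ * r * j)) * j⁻¹ := by rw [h6]
        _ = j * x * j⁻¹ * r := by group
    · rw [card_conjO (hnJM j hj)]; exact h4
  have hSC : ∀ h ∈ H, ∀ x ∈ SCO p N M H R, h * x * h⁻¹ ∈ SCO p N M H R := by
    rintro h hh x ⟨k, hk, hkx⟩
    refine ⟨k * h⁻¹, H.mul_mem hk (H.inv_mem hh), ?_⟩
    have h1 : k * h⁻¹ * (h * x * h⁻¹) * (k * h⁻¹)⁻¹ = k * x * k⁻¹ := by group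
    rw [h1]
    exact hkx
  have hSSC : S ⊆ SCO p N M H R := fun x hx => ⟨1, H.one_mem, by simpa using hx⟩
  have hcard : ∀ x ∈ S, (Nat.card ↥(M ⊓ Subgroup.centralizer ({x} : Set Γ))).factorization p =
      (Nat.card R).factorization p := fun x hx => card_cent hR hRM hx.2.2.1 hx.2.2.2
  have hfus : ∀ x ∈ S, ∀ h ∈ H, h * x * h⁻¹ ∈ S → ∃ j ∈ J, h * x * h⁻¹ = j * x * j⁻¹ :=
    fun x hx h hh hx' => conj_of_conjO hR hRM hMH hE.normM hh rfl hx.2.2.1 hx'.2.2.1 (hcard _ hx')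
  -- the elements of `SC` which centralise `R` are in `S`
  have hback : ∀ y ∈ N, (∀ r ∈ R, r * y = y * r) → y ∈ SCO p N M H R → y ∈ S := by
    rintro y hyN hyR ⟨h, hh, hy⟩
    refine ⟨hyN, ?_, hyR, ?_⟩
    · have := hy.2.1
      rwa [orderOf_conj'] at this
    · refine le_antisymm ?_ ?_
      · have h1 := hcard _ hy
        rw [card_conjO (hnM h hh)] at h1
        rw [← h1]
        exact (Nat.factorization_le_iff_dvd Nat.card_pos.ne' Nat.card_pos.ne').2
          (Subgroup.card_dvd_of_le (inf_le_inf_right _ inf_le_left)) p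
      · exact (Nat.factorization_le_iff_dvd Nat.card_pos.ne' Nat.card_pos.ne').2
          (Subgroup.card_dvd_of_le (le_inf hRJM fun r hr => Pool.Agent.Y177.NV.mem_cent.2 (hyR r hr))) p
  have hzH : ∀ j ∈ H, ∀ x, z (j * x * j⁻¹) = z x := hE.inv
  have hcent : ∀ j ∈ J, ∀ x, j * x * j⁻¹ ∈ Subgroup.centralizer (R : Set Γ) ↔
      x ∈ Subgroup.centralizer (R : Set Γ) := by
    have h1 : ∀ j ∈ J, ∀ x ∈ (Subgroup.centralizer (R : Set Γ) : Set Γ),
        j * x * j⁻¹ ∈ (Subgroup.centralizer (R : Set Γ) : Set Γ) := by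
      intro j hj x hx
      rw [SetLike.mem_coe, Subgroup.mem_centralizer_iff] at hx ⊢
      intro r hr
      have h5 : j⁻¹ * r * j ∈ R :=
        (Subgroup.mem_normalizer_iff''.1 (Subgroup.mem_inf.1 hj).2 r).1 hr
      have h6 := hx _ h5
      calc r * (j * x * j⁻¹) = j * (j⁻¹ * r * j * x) * j⁻¹ := by group
        _ = j * (x * (j⁻¹ * r * j)) * j⁻¹ := by rw [h6]
        _ = j * x * j⁻¹ * r := by group
    intro j hj x
    exact conj_mem_iff h1 hj x
  have hcutJ : ∀ j ∈ J, ∀ x, cut z (Subgroup.centralizer (R : Set Γ)) (j * x * j⁻¹) =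
      cut z (Subgroup.centralizer (R : Set Γ)) x := by
    intro j hj x
    simp only [cut, hcent j hj x, hzH j (hJH hj) x]
  refine finrank_eq (Top p z (SCO p N M H R)) (Top p (cut z (Subgroup.centralizer (R : Set Γ))) S)
    (res S) (VS (SCO p N M H R) H) (VS S J) ?_ ?_ ?_ ?_ ?_ c
  · intro θ hθ
    exact Tfun_mem hSC hzH hθ.2
  · intro θ hθ
    refine ⟨fun x hx => by rw [res_apply, if_neg hx], fun j hj x => ?_⟩
    exact res_conj hSJ (fun j hj => hθ.2 j (hJH hj)) hj x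
  · -- extension
    intro η hη
    have hval : ∀ x h₁ h₂, h₁ ∈ H → h₂ ∈ H → h₁ * x * h₁⁻¹ ∈ S → h₂ * x * h₂⁻¹ ∈ S →
        η (h₁ * x * h₁⁻¹) = η (h₂ * x * h₂⁻¹) := by
      intro x h₁ h₂ hh₁ hh₂ hx₁ hx₂
      have h1 : h₂ * x * h₂⁻¹ = (h₂ * h₁⁻¹) * (h₁ * x * h₁⁻¹) * (h₂ * h₁⁻¹)⁻¹ := by group
      rw [h1] at hx₂ ⊢
      obtain ⟨j, hj, hj'⟩ := hfus _ hx₁ _ (H.mul_mem hh₂ (H.inv_mem hh₁)) hx₂
      rw [hj', hη.2 j hj]
    have hch : ∀ x ∈ SCO p N M H R, ∃ h, h ∈ H ∧ h * x * h⁻¹ ∈ S := fun x hx => hx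
    choose! κ hκ using hch
    refine ⟨fun x => if x ∈ SCO p N M H R then η (κ x * x * (κ x)⁻¹) else 0,
      ⟨fun x hx => if_neg hx, fun h hh x => ?_⟩, ?_⟩
    · by_cases hx : x ∈ SCO p N M H R
      · have hx' := hSC h hh x hx
        simp only [hx, hx', if_true]
        have h1 := hκ _ hx'
        have h2 := hκ _ hx
        have h3 : κ (h * x * h⁻¹) * (h * x * h⁻¹) * (κ (h * x * h⁻¹))⁻¹ =
            (κ (h * x * h⁻¹) * h) * x * (κ (h * x * h⁻¹) * h)⁻¹ := by group
        have h4 := h1.2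
        rw [h3] at h4 ⊢
        exact hval x _ _ (H.mul_mem h1.1 hh) h2.1 h4 h2.2
      · have hx' : h * x * h⁻¹ ∉ SCO p N M H R := fun h' => hx ((conj_mem_iff hSC hh x).1 h')
        simp only [hx, hx', if_false]
    · funext x
      rw [res_apply]
      by_cases hx : x ∈ S
      · simp only [hx, hSSC hx, if_true]
        have h2 := hκ _ (hSSC hx)
        have h3 := hval x _ 1 h2.1 H.one_mem h2.2 (by simpa using hx)
        rw [h3, one_mul, inv_one, mul_one]
      · rw [if_neg hx, hη.1 x hx]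
  · -- injectivity
    intro θ hθ h0
    funext x
    by_cases hx : x ∈ SCO p N M H R
    · obtain ⟨h, hh, hx'⟩ := hx
      have h1 := congrFun h0 (h * x * h⁻¹)
      rw [res_apply, if_pos hx', hθ.2 h hh] at h1
      exact h1
    · exact hθ.1 x hx
  · -- the two operators
    intro θ hθ
    funext x
    rw [res_apply]
    show (if x ∈ S then Tfun p z (SCO p N M H R) θ x else 0) =
      Tfun p (cut z (Subgroup.centralizer (R : Set Γ))) S (res S θ) x
    by_cases hx : x ∈ S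
    · simp only [Tfun, hx, hSSC hx, if_true]
      rw [← sub_eq_zero, ← finsum_sub_distrib (Set.toFinite _) (Set.toFinite _)]
      have hrx : ∀ r ∈ R, ∀ g, r * g * r⁻¹ * x = r * (g * x) * r⁻¹ := by
        intro r hr g
        calc r * g * r⁻¹ * x = r * g * (r⁻¹ * (x * r)) * r⁻¹ := by group
          _ = r * g * (r⁻¹ * (r * x)) * r⁻¹ := by rw [hx.2.2.1 r hr]
          _ = r * (g * x) * r⁻¹ := by group
      refine sum_conj_eq_zero hR _ (fun r hr g => ?_) fun g hg => ?_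
      · rw [hrx r hr, pp_conj, hzH r (hRH hr), hθ.2 r (hRH hr), hcutJ r (hRJ hr),
          res_conj hSJ (fun j hj => hθ.2 j (hJH hj)) (hRJ hr)]
      · have hgC : g ∈ Subgroup.centralizer (R : Set Γ) := by
          rw [Subgroup.mem_centralizer_iff]
          exact hg
        rw [res_apply, cut, if_pos hgC, ← mul_sub]
        by_cases hz : z g = 0
        · rw [hz, zero_mul]
        · have hgN : g ∈ N := by
            by_contra h'
            exact hz (hE.ext.supp g h')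
          by_cases hy : pp p (g * x) ∈ S
          · rw [if_pos hy, sub_self, mul_zero]
          · rw [if_neg hy]
            have h1 : pp p (g * x) ∉ SCO p N M H R := by
              intro h'
              refine hy (hback _ ?_ ?_ h')
              · exact N.pow_mem (N.mul_mem hgN hx.1) _
              · intro r hr
                have h2 : Commute r (g * x) := Commute.mul_right (hg r hr) (hx.2.2.1 r hr)
                exact h2.pow_right _
            rw [hθ.1 _ h1, sub_self, mul_zero]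
    · simp only [Tfun, hx, if_false]

end Pool.Agent.N657.EN
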