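import Pool.Agent.N212.KS.Stm

/-!
# Project KS, part BIG (helper657): off a proper closed subset the ample height is bounded by the
eigenheights
-/

namespace Pool.Agent.N657.KS

open Pool.Agent.N212.KS

universe u v w z

theorem h_sum {X : Type u} {N : Type v} [TopologicalSpace X] [AddCommGroup N] [Module ℝ N]
    (D : HeightData X N) {ι : Type z} (l : ι → N) (s : Finset ι) :
    ∃ C : ℝ, ∀ x, |D.h (∑ i ∈ s, l i) x - ∑ i ∈ s, D.h (l i) x| ≤ C * √(D.H x) := by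
  classical
  induction s using Finset.induction_on with
  | empty =>
    obtain ⟨C, hC⟩ := D.h_smul 0 0
    refine ⟨C, fun x => ?_⟩
    have := hC x
    rwa [zero_smul, zero_mul] at this
  | insert a s ha ih =>
    obtain ⟨C, hC⟩ := ih
    obtain ⟨C', hC'⟩ := D.h_add (l a) (∑ i ∈ s, l i)
    refine ⟨C + C', fun x => ?_⟩
    rw [Finset.sum_insert ha, Finset.sum_insert ha]
    have h1 := abs_le.1 (hC x)
    have h2 := abs_le.1 (hC' x)
    rw [abs_le]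
    constructor <;> linarith [h1.1, h1.2, h2.1, h2.2]

theorem t_BIG : Pool.Agent.N212.KS.S_BIG.{u, v, w, z} := by
  intro X N G ι _ _ _ _ _ _ D P E
  obtain ⟨C, hC, heff⟩ := E.big
  obtain ⟨Z, hZc, hZu, C1, hC1⟩ := D.h_eff _ heff
  refine ⟨Z, hZc, hZu, ?_⟩
  have he : C • (∑ i, E.ℓ i) - D.θ = C • (∑ i, E.ℓ i) + (-1 : ℝ) • D.θ := by
    rw [neg_one_smul, sub_eq_add_neg]
  rw [he] at hC1
  obtain ⟨c1, h1⟩ := D.h_add (C • (∑ i, E.ℓ i)) ((-1 : ℝ) • D.θ)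
  obtain ⟨c2, h2⟩ := D.h_smul C (∑ i, E.ℓ i)
  obtain ⟨c3, h3⟩ := D.h_smul (-1) D.θ
  obtain ⟨c4, h4⟩ := D.h_theta
  obtain ⟨c5, h5⟩ := h_sum D E.ℓ Finset.univ
  set K : ℝ := C1 + c1 + c2 + c3 + c4 + C * c5 with hK
  refine ⟨2 * C, K ^ 2, by positivity, fun x hx => ?_⟩
  have e0 := hC1 x hx
  have e1 := abs_le.1 (h1 x)
  have e2 := abs_le.1 (h2 x)
  have e3 := abs_le.1 (h3 x)
  have e4 := abs_le.1 (h4 x)
  have e5 := abs_le.1 (h5 x)
  set r : ℝ := √(D.H x) with hr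
  have hH : D.H x = r ^ 2 := by
    rw [hr, Real.sq_sqrt]
    linarith [D.one_le_H x]
  have e6 : C * D.h (∑ i, E.ℓ i) x ≤ C * (∑ i, D.h (E.ℓ i) x) + C * (c5 * r) := by
    rw [← mul_add]
    exact mul_le_mul_of_nonneg_left (by linarith [e5.2]) hC.le
  have e7 : D.H x ≤ C * (∑ i, D.h (E.ℓ i) x) + K * r := by
    have : K * r = C1 * r + c1 * r + c2 * r + c3 * r + c4 * r + C * (c5 * r) := by
      rw [hK]
      ring
    rw [this]
    linarith [e1.1, e1.2, e2.1, e2.2, e3.1, e3.2, e4.1, e4.2]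
  have e8 : 2 * (K * r) ≤ D.H x + K ^ 2 := by
    rw [hH]
    nlinarith [sq_nonneg (r - K)]
  linarith

end Pool.Agent.N657.KS
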